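import Pool.Agent.Lib_helper41.KSL.DefsN
import Pool.Agent.Lib_helper61.FG.Defs

/-!
# Half of the central values of weight two newforms of prime level obey the lower half of the
Keating-Snaith law. Definitions.
-/

namespace Pool.Agent.KSL

open Pool.Agent.LEV Pool.Agent.LVB
open Pool.Agent.FG61 (mu phi cc ff AA Lam)
open Complex MeasureTheory Filter Topology UpperHalfPlane ModularGroup ProbabilityTheory
open scoped MatrixGroups Modular ENNReal ModularForm ComplexConjugate ContDiff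

/-! ## Geometry -/

/-- the radius of the isometric circle of `Γ₀(N)⁺` at a fraction with denominator `q` -/
noncomputable def rq (N q : ℕ) : ℝ := 1 / ((q : ℝ) * Real.sqrt N)

/-- reduced residues -/
def RR (q : ℕ) : Finset ℕ := (Finset.range q).filter (fun j => q.Coprime j)

/-- the linear functional: a combination of integrals over vertical half lines -/
noncomputable def lw {N : ℕ} (f : S2 N) (Q : ℕ) (w : ℕ → ℝ) : ℂ :=
  ∑ q ∈ Finset.Icc 1 Q, (w q : ℂ) * ∑ j ∈ RR q, ∫ v in Set.Ioi (rq N q), ev f ((j : ℝ) / q) v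

/-- its Fourier coefficients -/
noncomputable def WW (Q : ℕ) (w : ℕ → ℝ) (n : ℕ) : ℝ := ∑ q ∈ Finset.Icc 1 Q, w q * cc q n

/-- the part with denominators larger than `D` -/
noncomputable def TT (Q : ℕ) (w : ℕ → ℝ) (D : ℝ) (n : ℕ) : ℝ :=
  ∑ q ∈ (Finset.Icc 1 Q).filter (fun q : ℕ => D < q), w q * cc q n

/-- points outside all isometric circles of `Γ₀(N)⁺` -/
def Ford (N : ℕ) (z : ℍ) : Prop :=
  (∀ c d : ℤ, c ≠ 0 → 1 < (N : ℝ) * ‖(c : ℂ) * (z : ℂ) + (d : ℂ)‖ ^ 2) ∧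
  (∀ c d : ℤ, c ≠ 0 → (N : ℤ) ∣ c → 1 < ‖(c : ℂ) * (z : ℂ) + (d : ℂ)‖ ^ 2)

/-- the Fourier transform of the kernel -/
noncomputable def kh (ρ : ℝ → ℝ) (u : ℝ) : ℂ :=
  ∫ t : ℝ, (ρ t : ℂ) * (1 - (t : ℂ) * Complex.I) * cexp (-(2 * Real.pi * u * t : ℝ) * Complex.I)

/-- the Fourier transform of the weight -/
noncomputable def sgm (ρ : ℝ → ℝ) (u : ℝ) : ℝ := ∫ t : ℝ, ρ t * Real.cos (2 * Real.pi * u * t)

/-- a weight on the slopes -/
structure Ker (T : ℝ) (ρ : ℝ → ℝ) : Prop where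
  T1 : 1 ≤ T
  cont : Continuous ρ
  nonneg : ∀ t, 0 ≤ ρ t
  even : ∀ t, ρ (-t) = ρ t
  supp : ∀ t, T < |t| → ρ t = 0
  int : ∫ t, ρ t = 1
  dec : ∃ C : ℝ, ∀ u : ℝ, 0 < u → |sgm ρ u| ≤ C / u

/-- a decreasing bounded integrable function -/
structure Kg (g : ℝ → ℝ) (G : ℝ) : Prop where
  anti : AntitoneOn g (Set.Ioi 0)
  nonneg : ∀ u, 0 ≤ g u
  bdd : ∀ u, g u ≤ G
  int : IntegrableOn g (Set.Ioi 0)

/-- the integral over a vertical half line -/
noncomputable def Psi {N : ℕ} (f : S2 N) (x y : ℝ) : ℂ := ∫ v in Set.Ioi y, ev f x v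

/-- the kernel in the lower part of the Ford domain -/
noncomputable def ph (N Q : ℕ) (w : ℕ → ℝ) (ρ : ℝ → ℝ) (x y : ℝ) : ℂ :=
  ∑ q ∈ (Finset.Icc 1 Q).filter (fun q : ℕ => 2 * rq N q < y), (w q : ℂ) *
    ∑ j ∈ RR q, ((y⁻¹ * ρ ((x - (j : ℝ) / q) / y) : ℝ) : ℂ) *
      (1 - (((x - (j : ℝ) / q) / y : ℝ) : ℂ) * Complex.I)

/-- the boundary functional at a fraction -/
noncomputable def bdf {N : ℕ} (f : S2 N) (ρ : ℝ → ℝ) (q : ℕ) (x : ℝ) : ℂ :=
  (∫ v in (rq N q)..(2 * rq N q), ev f x v) -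
    Complex.I * ∫ t : ℝ, (ρ t : ℂ) * ∫ s in (0 : ℝ)..(t * (2 * rq N q)), ev f (x + s) (2 * rq N q)

/-- the contribution of the full strip -/
noncomputable def HS (N Q : ℕ) (w : ℕ → ℝ) (ρ : ℝ → ℝ) : ℝ :=
  ∑' n : ℕ, WW Q w n ^ 2 * sgm ρ (n * (2 / Real.sqrt N)) ^ 2 / (Real.pi * n)

/-- the contribution of the lower part -/
noncomputable def BS (N Q : ℕ) (w : ℕ → ℝ) (ρ : ℝ → ℝ) : ℝ :=
  ∫ y in Set.Ioo 0 (2 / Real.sqrt N), ∫ x : ℝ, ‖ph N Q w ρ x y‖ ^ 2

/-! ## The weights -/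

/-- the largest small prime -/
noncomputable def zz (N : ℕ) : ℕ := ⌊zN N⌋₊

/-- the length of the mollifier -/
noncomputable def MM (δ : ℝ) (N : ℕ) : ℕ := ⌊(N : ℝ) ^ (1 / 2 - δ)⌋₊

/-- the bound for the small factor -/
noncomputable def KA (ε : ℝ) (N : ℕ) : ℕ := ⌊(N : ℝ) ^ ε⌋₊

/-- the `z`-smooth part -/
def smp (z n : ℕ) : ℕ := ∏ p ∈ n.primeFactors.filter (fun p => p ≤ z), p ^ n.factorization p

/-- the `z`-rough part -/
def rop (z n : ℕ) : ℕ := ∏ p ∈ n.primeFactors.filter (fun p => z < p), p ^ n.factorization p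

/-- the primes in `(M, K M]` -/
def PK (M K : ℕ) : Finset ℕ := (Finset.Ioc M (K * M)).filter Nat.Prime

open Classical in
/-- the rough numbers up to `M` -/
noncomputable def RO (z M : ℕ) : Finset ℕ := (Finset.Icc 1 M).filter (fun n => rough z n)

noncomputable def g0 (z M : ℕ) : ℝ := ∑ e ∈ RO z M, mu e * Real.log ((M : ℝ) / e)

noncomputable def be (z M K : ℕ) : ℝ := g0 z M / (PK M K).card

/-- the weight function of the mollifier -/
noncomputable def gE (z M K e : ℕ) : ℝ :=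
  if e ≤ M then Real.log ((M : ℝ) / e) else if e ∈ PK M K then be z M K else 0

open Classical in
noncomputable def yE (z M K e : ℕ) : ℝ :=
  if rough z e ∧ 1 ≤ e then mu e * gE z M K e / (e * Real.log M) else 0

/-- the weights of the fractions with rough denominators -/
noncomputable def wr (z M K r : ℕ) : ℝ := ∑ m ∈ Finset.Icc 1 (K * M), yE z M K (r * m)

/-- the weights of the fractions with smooth denominators -/
noncomputable def al (A : ℕ) (a : ℕ → ℝ) (u : ℕ) : ℝ :=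
  ∑ k ∈ (Finset.Icc 1 A).filter (fun k => u ∣ k), a k / Real.sqrt k * ((k / u).divisors.card : ℝ)

/-- the weights of all fractions -/
noncomputable def wA (z M K A : ℕ) (a : ℕ → ℝ) (q : ℕ) : ℝ :=
  al A a (smp z q) * wr z M K (rop z q)

/-- the bound for the denominators -/
def QA (M K A : ℕ) : ℕ := K * M * A

/-- the smooth factor of the Fourier coefficients -/
noncomputable def Ph (A : ℕ) (a : ℕ → ℝ) (n : ℕ) : ℝ :=
  ∑ k ∈ Finset.Icc 1 A, a k / Real.sqrt k * ∑ d ∈ (Nat.gcd k n).divisors, (d : ℝ)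

/-- the rough factor of the Fourier coefficients -/
noncomputable def Wr (z M K n : ℕ) : ℝ := ∑ e ∈ n.divisors, (e : ℝ) * yE z M K e

/-- the bound for all denominators -/
noncomputable def QQ (δ ε : ℝ) (N : ℕ) : ℕ := QA (MM δ N) 2 (KA ε N)

/-- all weights -/
noncomputable def ww (δ ε : ℝ) (N : ℕ) (a : ℕ → ℝ) (q : ℕ) : ℝ :=
  wA (zz N) (MM δ N) 2 (KA ε N) a q

/-- the mollifier -/
noncomputable def Mr (z M K : ℕ) (x : ℕ → ℝ) : ℝ :=
  ∑ e ∈ Finset.Icc 1 (K * M), (e : ℝ) * yE z M K e *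
    ∏ p ∈ e.primeFactors, (x p / Real.sqrt p - 1 / p)

/-- conditions on the coefficients of the small factor -/
structure Sht (z A : ℕ) (a : ℕ → ℝ) : Prop where
  sup : ∀ k, a k ≠ 0 → smooth z k ∧ k ≤ A
  l1 : ∑ k ∈ Finset.Icc 1 A, |a k| ≤ A

open Classical in
/-- the square of the norm of the small factor times the Euler product over small primes -/
noncomputable def cn (z A : ℕ) (a : ℕ → ℝ) : ℝ :=
  ∑' m : ℕ, if smooth z m then Ph A a m ^ 2 / m else 0

open Classical in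
/-- its distance from `s` -/
noncomputable def cd (z A : ℕ) (a s : ℕ → ℝ) : ℝ :=
  ∑' m : ℕ, if smooth z m then (Ph A a m / Real.sqrt m - s m) ^ 2 else 0

/-- `∑_{q ≤ D} φ(q) w_q²` -/
noncomputable def GD (w : ℕ → ℝ) (D : ℝ) : ℝ := ∑ q ∈ Finset.Icc 1 ⌊D⌋₊, phi q * w q ^ 2

/-- the product of the primes up to `z` -/
def Pz (z : ℕ) : ℕ := ∏ p ∈ (Finset.Icc 1 z).filter Nat.Prime, p

/-- `∏_{p ≤ z} (1 - 1/p)` -/
noncomputable def Vz (z : ℕ) : ℝ := ∏ p ∈ (Finset.Icc 1 z).filter Nat.Prime, (1 - 1 / (p : ℝ))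

/-- the coefficients of the functional as a Dirichlet polynomial -/
noncomputable def Wt (N Q : ℕ) (w : ℕ → ℝ) (n : ℕ) : ℝ :=
  ∑ q ∈ Finset.Icc 1 Q, w q * cc q n * Real.exp (-2 * Real.pi * n * rq N q)

/-- the length of the Dirichlet polynomial -/
noncomputable def X1 (δ : ℝ) (N : ℕ) : ℕ := ⌊(N : ℝ) ^ (1 - δ / 2)⌋₊

/-- the functional as a Dirichlet polynomial -/
noncomputable def Fs (δ : ℝ) (N Q : ℕ) (w : ℕ → ℝ) (x : ℕ → ℝ) : ℝ :=
  ∑ n ∈ Finset.Icc 1 (X1 δ N), 2 * Wt N Q w n / Real.sqrt n * Um n x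

/-! ## Small primes -/

/-- the tiny primes -/
noncomputable def I0 (N : ℕ) : Finset ℕ :=
  (Finset.Icc 1 ⌊Real.log (Real.log N)⌋₊).filter Nat.Prime

/-- all small primes -/
noncomputable def IZ (N : ℕ) : Finset ℕ := (Finset.Icc 1 (zz N)).filter Nat.Prime

/-- the approximate inverse of the Euler product over the small primes -/
noncomputable def Bz (A₁ N : ℕ) (x : ℕ → ℝ) : ℝ :=
  (∏ p ∈ I0 N, (1 - x p / Real.sqrt p + 1 / p)) *
    mb1 (IN N) (A₁ * ⌈Real.log (Real.log N)⌉₊) x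

/-- the Euler factor at a small prime -/
noncomputable def er (p : ℕ) (x : ℝ) : ℝ := (1 - x / Real.sqrt p + 1 / p)⁻¹

/-- the mollified Euler product over the primes in `IN N` -/
noncomputable def Yz (A₁ N : ℕ) (x : ℕ → ℝ) : ℝ :=
  (∏ p ∈ IN N, er p (x p)) * mb1 (IN N) (A₁ * ⌈Real.log (Real.log N)⌉₊) x

/-- the normalised sum over primes -/
noncomputable def Pn (N : ℕ) (x : ℕ → ℝ) : ℝ := PB (IN N) x / Real.sqrt (HB (IN N))

/-- the density used for the passage to equal weights -/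
noncomputable def Hd (A : Finset ℕ) (c : ℕ → ℝ) (x : ℕ → ℝ) : ℝ := ∑ a ∈ A, c a * Um a x ^ 2

open Classical in
/-- the indicator function of `[V, ∞)` -/
noncomputable def iV (V x : ℝ) : ℝ := if V ≤ x then 1 else 0

end Pool.Agent.KSL
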